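import Mathlib

/-!
# Formula size for a prescribed model count is not polynomial in `log` of the block count

For every `B ≥ 1` there is a number `k` with `bl k = B + 1` and `B ≤ (β k)^2`.
-/

set_option autoImplicit false

namespace Pool.Agent.Results.MP_94c5d9_co.BlockCount

open Finset

/-- A literal over the variables `x_0, …, x_{n-1}`: `(i, true)` is `x_i`, `(i, false)` is its
negation. -/
abbrev Lit (n : ℕ) := Fin n × Bool

/-- The assignment `x` makes the literal `l` true. -/
def LitHolds {n : ℕ} (x : Fin n → Bool) (l : Lit n) : Prop := x l.1 = l.2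

instance {n : ℕ} (x : Fin n → Bool) (l : Lit n) : Decidable (LitHolds x l) :=
  inferInstanceAs (Decidable (x l.1 = l.2))

/-- The number of satisfying assignments of the DNF with set of terms `F`. -/
def dnfCount {n : ℕ} (F : Finset (Finset (Lit n))) : ℕ :=
  #{x : Fin n → Bool | ∃ T ∈ F, ∀ l ∈ T, LitHolds x l}

/-- The number of satisfying assignments of the CNF with set of clauses `F`. -/
def cnfCount {n : ℕ} (F : Finset (Finset (Lit n))) : ℕ :=
  #{x : Fin n → Bool | ∀ C ∈ F, ∃ l ∈ C, LitHolds x l}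

/-- Some DNF with exactly `s` terms or some CNF with exactly `s` clauses (over some number `n` of
variables, all terms and clauses nonempty, at least one term or clause) has exactly `k`
satisfying assignments. -/
def Realizes (k s : ℕ) : Prop :=
  ∃ (n : ℕ) (F : Finset (Finset (Lit n))), F.Nonempty ∧ (∀ T ∈ F, T.Nonempty) ∧ #F = s ∧
    (dnfCount F = k ∨ cnfCount F = k)

/-- `β k`: the least number of terms or clauses of a formula with exactly `k` satisfying
assignments. -/
noncomputable def beta (k : ℕ) : ℕ := sInf {s | Realizes k s}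

/-- The block count: the number of maximal runs of `1`s in the binary expansion of `k`, counted by
the positions of their leading `1`s. -/
def bl (k : ℕ) : ℕ := #{p ∈ range (k + 1) | k.testBit p = true ∧ k.testBit (p + 1) = false}

/-! ### Cubes -/

/-- The set of points satisfying all literals of `T`. -/
def cube {n : ℕ} (T : Finset (Lit n)) : Finset (Fin n → Bool) :=
  {x | ∀ l ∈ T, LitHolds x l}

/-- The set of variables of `T`. -/
def vars {n : ℕ} (T : Finset (Lit n)) : Finset (Fin n) := T.image Prod.fst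

theorem mem_cube {n : ℕ} (T : Finset (Lit n)) (x : Fin n → Bool) :
    x ∈ cube T ↔ ∀ l ∈ T, x l.1 = l.2 := by
  unfold cube
  rw [mem_filter]
  exact ⟨fun h => h.2, fun h => ⟨mem_univ _, h⟩⟩

theorem card_cube {n : ℕ} (T : Finset (Lit n)) (h : (cube T).Nonempty) :
    #(cube T) = 2 ^ (n - #(vars T)) := by
  classical
  obtain ⟨y, hy⟩ := h
  rw [mem_cube] at hy
  have he : cube T = Fintype.piFinset
      (fun i : Fin n => if i ∈ vars T then ({y i} : Finset Bool) else Finset.univ) := by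
    ext x
    rw [mem_cube, Fintype.mem_piFinset]
    constructor
    · intro hx i
      by_cases hi : i ∈ vars T
      · rw [if_pos hi, mem_singleton]
        obtain ⟨l, hl, rfl⟩ := mem_image.1 hi
        rw [hx l hl, hy l hl]
      · rw [if_neg hi]
        exact mem_univ _
    · intro hx l hl
      have hi : l.1 ∈ vars T := mem_image_of_mem _ hl
      have := hx l.1
      rw [if_pos hi, mem_singleton] at this
      rw [this, hy l hl]
  rw [he, Fintype.card_piFinset]
  have h1 : ∀ i : Fin n, #(if i ∈ vars T then ({y i} : Finset Bool) else Finset.univ)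
      = if i ∈ vars T then 1 else 2 := by
    intro i
    by_cases hi : i ∈ vars T
    · rw [if_pos hi, if_pos hi, card_singleton]
    · rw [if_neg hi, if_neg hi, card_univ, Fintype.card_bool]
  rw [prod_congr rfl (fun i _ => h1 i), prod_ite, prod_const_one, one_mul, prod_const]
  congr 1
  have h2 : (univ.filter fun i : Fin n => i ∉ vars T) = (vars T)ᶜ := by
    ext i
    simp
  rw [h2, card_compl, Fintype.card_fin]

theorem card_vars_le {n : ℕ} (T : Finset (Lit n)) : #(vars T) ≤ n := by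
  simpa using Finset.card_le_univ (vars T)

/-- The signed sum of cube sizes. -/
theorem count_outside {n : ℕ} (F : Finset (Finset (Lit n))) :
    ((#{x : Fin n → Bool | ∀ T ∈ F, x ∉ cube T} : ℕ) : ℤ)
      = ∑ t ∈ F.powerset, (-1) ^ #t * (#(cube (t.biUnion id)) : ℤ) := by
  classical
  have h := Finset.inclusion_exclusion_card_inf_compl (α := Fin n → Bool) F
    (fun T => cube T)
  have h1 : (F.inf fun T => (cube T)ᶜ) = ({x : Fin n → Bool | ∀ T ∈ F, x ∉ cube T} : Finset _) := by
    ext x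
    simp [Finset.mem_inf]
  rw [h1] at h
  rw [h]
  apply Finset.sum_congr rfl
  intro t _
  congr 3
  ext x
  simp only [Finset.mem_inf, mem_cube, mem_biUnion, id]
  constructor
  · rintro hx l ⟨T, hT, hl⟩
    exact hx T hT l hl
  · intro hx T hT l hl
    exact hx l ⟨T, hT, hl⟩

/-! ### The window lemma -/

theorem window {ι : Type} (S : Finset ι) (c : ι → ℤ) (a : ι → ℕ) (s k p : ℕ)
    (hS : #S ≤ 2 ^ s) (hc : ∀ t ∈ S, |c t| ≤ 1) (hk : (k : ℤ) = ∑ t ∈ S, c t * 2 ^ a t)
    (hp : 1 ≤ p) (h1 : k.testBit p = true) (h0 : k.testBit (p - 1) = false) :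
    ∃ t ∈ S, c t ≠ 0 ∧ a t ≤ p ∧ p ≤ a t + s + 1 := by
  classical
  by_contra hcon
  push Not at hcon
  -- split the sum
  set S1 := S.filter (fun t => c t ≠ 0 ∧ a t + s + 2 ≤ p) with hS1
  set L : ℤ := ∑ t ∈ S1, c t * 2 ^ a t with hL
  have hLb : 4 * |L| ≤ 2 ^ p := by
    by_cases hps : s + 2 ≤ p
    · have h2 : |L| ≤ ∑ t ∈ S1, (2 : ℤ) ^ (p - (s + 2)) := by
        refine (Finset.abs_sum_le_sum_abs _ _).trans (Finset.sum_le_sum ?_)
        intro t ht
        rw [hS1, mem_filter] at ht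
        rw [abs_mul, abs_of_nonneg (by positivity : (0 : ℤ) ≤ 2 ^ a t)]
        calc |c t| * 2 ^ a t ≤ 1 * 2 ^ a t := by
              exact mul_le_mul_of_nonneg_right (hc t ht.1) (by positivity)
          _ = 2 ^ a t := one_mul _
          _ ≤ 2 ^ (p - (s + 2)) := pow_le_pow_right₀ (by norm_num) (by omega)
      have h3 : (#S1 : ℤ) ≤ 2 ^ s := by
        exact_mod_cast (Finset.card_le_card (Finset.filter_subset _ _)).trans hS
      rw [Finset.sum_const, nsmul_eq_mul] at h2
      calc 4 * |L| ≤ 4 * (2 ^ s * 2 ^ (p - (s + 2))) := by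
            refine mul_le_mul_of_nonneg_left (h2.trans ?_) (by norm_num)
            exact mul_le_mul_of_nonneg_right h3 (by positivity)
        _ = 2 ^ p := by
            have : p = 2 + s + (p - (s + 2)) := by omega
            conv_rhs => rw [this, pow_add, pow_add]
            ring
    · have : S1 = ∅ := by
        rw [hS1, Finset.filter_eq_empty_iff]
        intro t _ h
        omega
      rw [hL, this, Finset.sum_empty, abs_zero, mul_zero]
      positivity
  have hdvd : (2 : ℤ) ^ (p + 1) ∣ (k : ℤ) - L := by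
    have : (k : ℤ) - L = ∑ t ∈ S.filter (fun t => ¬ (c t ≠ 0 ∧ a t + s + 2 ≤ p)),
        c t * 2 ^ a t := by
      rw [hk, hL, hS1, ← Finset.sum_filter_add_sum_filter_not S
        (fun t => c t ≠ 0 ∧ a t + s + 2 ≤ p)]
      ring
    rw [this]
    apply Finset.dvd_sum
    intro t ht
    rw [mem_filter] at ht
    by_cases hct : c t = 0
    · rw [hct, zero_mul]
      exact dvd_zero _
    · have h4 : ¬ a t + s + 2 ≤ p := fun h => ht.2 ⟨hct, h⟩
      have h5 : p < a t := by
        by_contra h6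
        have := hcon t ht.1 hct (by omega)
        omega
      exact Dvd.dvd.mul_left (pow_dvd_pow 2 (by omega)) _
  -- binary structure of k
  obtain ⟨H, R, hHR, hR⟩ : ∃ H R : ℕ, k = 2 ^ (p + 1) * H + 2 ^ p + R ∧ 2 * R < 2 ^ p := by
    have e1 : k = 2 ^ (p - 1) * (k / 2 ^ (p - 1)) + k % 2 ^ (p - 1) :=
      (Nat.div_add_mod k (2 ^ (p - 1))).symm
    have e2 : k % 2 ^ (p - 1) < 2 ^ (p - 1) := Nat.mod_lt _ (by positivity)
    have e3 : (k / 2 ^ (p - 1)) % 2 = 0 := by
      have := h0
      rw [Nat.testBit_eq_decide_div_mod_eq] at this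
      have h7 := of_decide_eq_false this
      omega
    have e4 : (k / 2 ^ (p - 1) / 2) % 2 = 1 := by
      have h8 := h1
      rw [Nat.testBit_eq_decide_div_mod_eq] at h8
      have h7 := of_decide_eq_true h8
      rw [Nat.div_div_eq_div_mul, ← pow_succ, Nat.sub_add_cancel hp]
      exact h7
    refine ⟨k / 2 ^ (p - 1) / 2 / 2, k % 2 ^ (p - 1), ?_, ?_⟩
    · have e5 : 2 ^ (p + 1) = 2 ^ (p - 1) * 4 := by
        have : p + 1 = (p - 1) + 2 := by omega
        rw [this, pow_add]; norm_num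
      have e6 : 2 ^ p = 2 ^ (p - 1) * 2 := by
        rw [← pow_succ, Nat.sub_add_cancel hp]
      rw [e5, e6]
      have e7 : k / 2 ^ (p - 1) = 4 * (k / 2 ^ (p - 1) / 2 / 2) + 2 := by omega
      calc k = 2 ^ (p - 1) * (k / 2 ^ (p - 1)) + k % 2 ^ (p - 1) := e1
        _ = 2 ^ (p - 1) * (4 * (k / 2 ^ (p - 1) / 2 / 2) + 2) + k % 2 ^ (p - 1) := by
            rw [← e7]
        _ = _ := by ring
    · have e6 : 2 ^ p = 2 ^ (p - 1) * 2 := by
        rw [← pow_succ, Nat.sub_add_cancel hp]
      omega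
  obtain ⟨m, hm⟩ := hdvd
  have hLabs := abs_le.1 (le_refl |L|)
  have e8 : (2 : ℤ) ^ (p + 1) * (m - H) = 2 ^ p + R - L := by
    have : (k : ℤ) = 2 ^ (p + 1) * H + 2 ^ p + R := by exact_mod_cast hHR
    rw [mul_sub, ← hm, this]
    ring
  have e9 : (2 * R : ℤ) < 2 ^ p := by exact_mod_cast hR
  have e10 : (0 : ℤ) ≤ R := Int.natCast_nonneg R
  have e11 : (0 : ℤ) < 2 ^ p := by positivity
  have e12 : (2 : ℤ) ^ (p + 1) = 2 * 2 ^ p := by rw [pow_succ]; ring
  rw [e12] at e8
  have hge : (0 : ℤ) < 2 * 2 ^ p * (m - H) := by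
    rw [e8]
    linarith [hLabs.2]
  have hlt : 2 * 2 ^ p * ((m : ℤ) - H) < 2 * 2 ^ p * 1 := by
    rw [e8]
    linarith [hLabs.1]
  have h20 : (0 : ℤ) < m - H := by
    by_contra h
    push Not at h
    have : 2 * 2 ^ p * (m - (H : ℤ)) ≤ 0 := mul_nonpos_of_nonneg_of_nonpos (by positivity) h
    linarith
  have h21 : (m : ℤ) - H < 1 := lt_of_mul_lt_mul_left hlt (by positivity)
  omega

/-! ### Counts as signed sums -/

/-- The number of points outside all cubes of `D`. -/
def outside {n : ℕ} (D : Finset (Finset (Lit n))) : ℕ :=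
  #{x : Fin n → Bool | ∀ T ∈ D, x ∉ cube T}

/-- The coefficient of `t`. -/
noncomputable def coef {n : ℕ} (t : Finset (Finset (Lit n))) : ℤ := by
  classical
  exact if (cube (t.biUnion id)).Nonempty then (-1) ^ #t else 0

theorem coef_abs {n : ℕ} (t : Finset (Finset (Lit n))) : |coef t| ≤ 1 := by
  classical
  unfold coef
  split_ifs
  · rw [abs_pow, abs_neg, abs_one, one_pow]
  · rw [abs_zero]
    exact zero_le_one

theorem coef_ne {n : ℕ} (t : Finset (Finset (Lit n))) (h : coef t ≠ 0) :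
    (cube (t.biUnion id)).Nonempty := by
  classical
  by_contra hc
  apply h
  unfold coef
  rw [if_neg hc]

theorem outside_eq {n : ℕ} (D : Finset (Finset (Lit n))) :
    ((outside D : ℕ) : ℤ)
      = ∑ t ∈ D.powerset, coef t * 2 ^ (n - #(vars (t.biUnion id))) := by
  classical
  unfold outside
  rw [count_outside]
  apply Finset.sum_congr rfl
  intro t _
  unfold coef
  split_ifs with h
  · rw [card_cube _ h]
    push_cast
    ring
  · rw [not_nonempty_iff_eq_empty] at h
    rw [h]
    simp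

theorem dnf_add {n : ℕ} (F : Finset (Finset (Lit n))) : dnfCount F + outside F = 2 ^ n := by
  classical
  unfold dnfCount outside
  have h1 : ({x : Fin n → Bool | ∀ T ∈ F, x ∉ cube T} : Finset _)
      = ({x : Fin n → Bool | ¬ ∃ T ∈ F, ∀ l ∈ T, LitHolds x l} : Finset _) := by
    ext x
    rw [mem_filter, mem_filter]
    simp only [mem_univ, true_and, mem_cube, LitHolds]
    push Not
    rfl
  rw [h1, Finset.card_filter_add_card_filter_not]
  simp

theorem dnf_eq {n : ℕ} (F : Finset (Finset (Lit n))) :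
    ((dnfCount F : ℕ) : ℤ)
      = ∑ t ∈ F.powerset, (if t = ∅ then 0 else - coef t) *
          2 ^ (n - #(vars (t.biUnion id))) := by
  classical
  have h1 : ((dnfCount F : ℕ) : ℤ) = 2 ^ n - outside F := by
    have := dnf_add F
    have h2 : ((dnfCount F : ℕ) : ℤ) + outside F = 2 ^ n := by exact_mod_cast this
    linarith
  rw [h1, outside_eq]
  have h0 : (∅ : Finset (Finset (Lit n))) ∈ F.powerset := empty_mem_powerset F
  rw [← Finset.add_sum_erase _ _ h0, ← Finset.add_sum_erase _ _ h0]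
  have h3 : coef (∅ : Finset (Finset (Lit n))) = 1 := by
    unfold coef
    rw [if_pos]
    · simp
    · refine ⟨fun _ => true, ?_⟩
      rw [mem_cube]
      simp
  have h4 : vars ((∅ : Finset (Finset (Lit n))).biUnion id) = ∅ := by
    simp [vars]
  rw [h3, h4, if_pos rfl, card_empty, Nat.sub_zero, one_mul, zero_mul, zero_add]
  have h5 : ∑ t ∈ F.powerset.erase ∅, (if t = ∅ then 0 else - coef t) *
        2 ^ (n - #(vars (t.biUnion id)))
      = ∑ t ∈ F.powerset.erase ∅, - (coef t * 2 ^ (n - #(vars (t.biUnion id)))) := by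
    apply Finset.sum_congr rfl
    intro t ht
    rw [if_neg (Finset.ne_of_mem_erase ht)]
    ring
  rw [h5, Finset.sum_neg_distrib]
  ring

/-- The negated clause. -/
def negC {n : ℕ} (C : Finset (Lit n)) : Finset (Lit n) := C.image fun l => (l.1, !l.2)

theorem mem_cube_negC {n : ℕ} (C : Finset (Lit n)) (x : Fin n → Bool) :
    x ∈ cube (negC C) ↔ ¬ ∃ l ∈ C, LitHolds x l := by
  rw [mem_cube]
  unfold negC LitHolds
  constructor
  · rintro h ⟨l, hl, hx⟩
    have := h (l.1, !l.2) (mem_image_of_mem _ hl)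
    simp only at this
    rw [hx] at this
    cases h7 : l.2 <;> rw [h7] at this <;> simp at this
  · intro h l hl
    obtain ⟨m, hm, rfl⟩ := mem_image.1 hl
    simp only
    by_contra hne
    apply h
    refine ⟨m, hm, ?_⟩
    cases h7 : m.2 <;> cases h8 : x m.1 <;> simp_all

theorem cnf_eq {n : ℕ} (F : Finset (Finset (Lit n))) :
    cnfCount F = outside (F.image negC) := by
  classical
  unfold cnfCount outside
  congr 1
  ext x
  simp only [mem_filter, mem_univ, true_and, mem_image]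
  constructor
  · rintro h T ⟨C, hC, rfl⟩ hx
    rw [mem_cube_negC] at hx
    exact hx (h C hC)
  · intro h C hC
    by_contra hx
    exact h _ ⟨C, hC, rfl⟩ ((mem_cube_negC C x).2 hx)

/-! ### The arithmetic of the target number -/

/-- What we need to know about `k`. -/
structure Good (k E W B : ℕ) : Prop where
  W_le : W ^ B < E
  lo : 2 ^ E ≤ k
  hi : k < 2 ^ (E + 1)
  one : ∀ j, 1 ≤ j → j ≤ B → k.testBit (E - W ^ j) = true
  zero : ∀ j, 1 ≤ j → j ≤ B → k.testBit (E - W ^ j - 1) = false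

theorem vars_biUnion {n : ℕ} (t : Finset (Finset (Lit n))) :
    vars (t.biUnion id) = t.biUnion vars := by
  ext i
  simp only [vars, mem_image, mem_biUnion, id]
  constructor
  · rintro ⟨l, ⟨T, hT, hl⟩, rfl⟩
    exact ⟨T, hT, l, hl, rfl⟩
  · rintro ⟨T, hT, l, hl, rfl⟩
    exact ⟨l, ⟨T, hT, hl⟩, rfl⟩

theorem cube_mono {n : ℕ} {T U : Finset (Lit n)} (h : T ⊆ U) : cube U ⊆ cube T := by
  intro x hx
  rw [mem_cube] at hx ⊢
  exact fun l hl => hx l (h hl)

theorem exists_big {ι : Type} (t : Finset ι) (g : ι → ℤ) (s w : ℤ) (hs : (#t : ℤ) ≤ s)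
    (hw : 0 < w) (hsum : w ≤ ∑ i ∈ t, g i) : ∃ i ∈ t, w ≤ s * g i := by
  by_contra hcon
  push Not at hcon
  have hne : t.Nonempty := by
    rw [nonempty_iff_ne_empty]
    rintro rfl
    rw [sum_empty] at hsum
    linarith
  have h1 : ∑ i ∈ t, s * g i < ∑ _i ∈ t, w := Finset.sum_lt_sum_of_nonempty hne hcon
  rw [← Finset.mul_sum, Finset.sum_const, nsmul_eq_mul] at h1
  have hs0 : 0 < s := by
    have : (0 : ℤ) < #t := by exact_mod_cast hne.card_pos
    linarith
  have h2 : s * w ≤ s * ∑ i ∈ t, g i := mul_le_mul_of_nonneg_left hsum hs0.le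
  have h3 : (#t : ℤ) * w ≤ s * w := mul_le_mul_of_nonneg_right hs hw.le
  linarith

theorem dnf_pairs {n k E W B s : ℕ} (hg : Good k E W B) (hW : 1 ≤ W)
    (F : Finset (Finset (Lit n))) (hs : #F ≤ s) (hk : dnfCount F = k) :
    ∃ G : Finset (Lit n) × Finset (Lit n) → ℤ, ∀ j, 1 ≤ j → j ≤ B →
      ∃ p ∈ F ×ˢ F, (W : ℤ) ^ j ≤ s * G p ∧ G p ≤ W ^ j + 2 * s + 1 := by
  classical
  refine ⟨fun p => if p.1 = p.2 then (E : ℤ) + #(vars p.2) - n else #(vars p.1 \ vars p.2), ?_⟩
  intro j hj hjB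
  have hWj : W ^ j ≤ W ^ B := Nat.pow_le_pow_right hW hjB
  have hWjE : W ^ j < E := lt_of_le_of_lt hWj hg.W_le
  have hW0 : 0 < W ^ j := Nat.pow_pos hW
  obtain ⟨t, ht, hc, h1, h2⟩ := window F.powerset
    (fun t => if t = ∅ then 0 else - coef t) (fun t => n - #(vars (t.biUnion id))) s k
    (E - W ^ j) (by rw [card_powerset]; exact Nat.pow_le_pow_right (by norm_num) hs)
    (by
      intro t _
      split_ifs
      · rw [abs_zero]; exact zero_le_one
      · rw [abs_neg]; exact coef_abs t)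
    (by rw [← hk]; exact dnf_eq F) (by omega) (hg.one j hj hjB) (hg.zero j hj hjB)
  have hne : t ≠ ∅ := by
    intro h
    rw [if_pos h] at hc
    exact hc rfl
  rw [if_neg hne] at hc
  have hcube : (cube (t.biUnion id)).Nonempty := coef_ne t (fun h => hc (by rw [h, neg_zero]))
  have htF : t ⊆ F := mem_powerset.1 ht
  obtain ⟨T0, hT0⟩ := nonempty_iff_ne_empty.2 hne
  set v := #(vars (t.biUnion id)) with hv
  have hvn : v ≤ n := card_vars_le _
  have hlow : (n : ℤ) + W ^ j ≤ E + v := by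
    have : n + W ^ j ≤ E + v := by omega
    exact_mod_cast this
  have hupp : (E : ℤ) + v ≤ n + W ^ j + s + 1 := by
    have : E + v ≤ n + W ^ j + s + 1 := by omega
    exact_mod_cast this
  -- excess of T0
  have hex : (n : ℤ) ≤ E + #(vars T0) := by
    have hcT : (cube T0).Nonempty := hcube.mono (cube_mono (by
      intro l hl
      rw [mem_biUnion]
      exact ⟨T0, hT0, hl⟩))
    have h3 : #(cube T0) ≤ dnfCount F := by
      unfold dnfCount
      apply card_le_card
      intro x hx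
      rw [mem_filter]
      rw [mem_cube] at hx
      exact ⟨mem_univ _, T0, htF hT0, hx⟩
    rw [card_cube T0 hcT, hk] at h3
    have h4 := lt_of_le_of_lt h3 hg.hi
    have h5 := (Nat.pow_lt_pow_iff_right (by norm_num : 1 < 2)).1 h4
    have : n ≤ E + #(vars T0) := by omega
    exact_mod_cast this
  have hsubT : ∀ T ∈ t, vars T ⊆ vars (t.biUnion id) := by
    intro T hT
    rw [vars_biUnion]
    exact subset_biUnion_of_mem vars hT
  have hsum : (W : ℤ) ^ j ≤ ∑ T ∈ t,
      (if T = T0 then (E : ℤ) + #(vars T0) - n else #(vars T \ vars T0)) := by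
    rw [← Finset.add_sum_erase _ _ hT0, if_pos rfl]
    have h6 : ∑ T ∈ t.erase T0,
        (if T = T0 then (E : ℤ) + #(vars T0) - n else #(vars T \ vars T0))
        = ∑ T ∈ t.erase T0, (#(vars T \ vars T0) : ℤ) := by
      apply Finset.sum_congr rfl
      intro T hT
      rw [if_neg (ne_of_mem_erase hT)]
    rw [h6]
    have h7 : v ≤ #(vars T0) + ∑ T ∈ t.erase T0, #(vars T \ vars T0) := by
      rw [hv, vars_biUnion]
      have h8 : t.biUnion vars ⊆ vars T0 ∪ (t.erase T0).biUnion (fun T => vars T \ vars T0) := by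
        intro i hi
        obtain ⟨T, hT, hiT⟩ := mem_biUnion.1 hi
        rw [mem_union]
        by_cases h9 : i ∈ vars T0
        · exact Or.inl h9
        · right
          rw [mem_biUnion]
          refine ⟨T, mem_erase.2 ⟨?_, hT⟩, mem_sdiff.2 ⟨hiT, h9⟩⟩
          rintro rfl
          exact h9 hiT
      exact (card_le_card h8).trans ((card_union_le _ _).trans
        (Nat.add_le_add_left card_biUnion_le _))
    have h10 : (v : ℤ) ≤ #(vars T0) + ∑ T ∈ t.erase T0, (#(vars T \ vars T0) : ℤ) := by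
      exact_mod_cast h7
    linarith
  obtain ⟨T, hT, hbig⟩ := exists_big t _ (s : ℤ) ((W : ℤ) ^ j)
    (by exact_mod_cast (card_le_card htF).trans hs) (by exact_mod_cast hW0) hsum
  refine ⟨(T, T0), mk_mem_product (htF hT) (htF hT0), hbig, ?_⟩
  dsimp only
  have hs0 : (0 : ℤ) ≤ s := Int.natCast_nonneg s
  split_ifs with h
  · have : #(vars T0) ≤ v := card_le_card (hsubT T0 hT0)
    have : (#(vars T0) : ℤ) ≤ v := by exact_mod_cast this
    linarith
  · have h11 : #(vars T \ vars T0) + #(vars T0) ≤ v := by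
      rw [← card_union_of_disjoint sdiff_disjoint]
      apply card_le_card
      apply union_subset
      · exact sdiff_subset.trans (hsubT T hT)
      · exact hsubT T0 hT0
    have h12 : (#(vars T \ vars T0) : ℤ) + #(vars T0) ≤ v := by exact_mod_cast h11
    linarith

theorem outside_lower {n : ℕ} (D : Finset (Finset (Lit n))) (h : 0 < outside D) :
    2 ^ (n - #D) ≤ outside D := by
  classical
  unfold outside at h
  obtain ⟨x0, hx0⟩ := card_pos.1 h
  rw [mem_filter] at hx0
  have h1 : ∀ T ∈ D, ∃ l ∈ T, x0 l.1 ≠ l.2 := by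
    intro T hT
    have := hx0.2 T hT
    rw [mem_cube] at this
    push Not at this
    exact this
  choose f hf1 hf2 using h1
  set U : Finset (Lit n) :=
    D.attach.image (fun T => ((f T.1 T.2).1, x0 (f T.1 T.2).1)) with hU
  have hne : (cube U).Nonempty := by
    refine ⟨x0, ?_⟩
    rw [mem_cube]
    intro l hl
    rw [hU, mem_image] at hl
    obtain ⟨T, _, rfl⟩ := hl
    rfl
  have h2 : cube U ⊆ ({x : Fin n → Bool | ∀ T ∈ D, x ∉ cube T} : Finset _) := by
    intro x hx
    rw [mem_cube] at hx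
    rw [mem_filter]
    refine ⟨mem_univ _, fun T hT hxT => ?_⟩
    rw [mem_cube] at hxT
    have h3 := hx ((f T hT).1, x0 (f T hT).1) (mem_image.2 ⟨⟨T, hT⟩, mem_attach _ _, rfl⟩)
    dsimp only at h3
    have h4 := hxT (f T hT) (hf1 T hT)
    exact hf2 T hT (by rw [← h3, h4])
  have h5 := card_le_card h2
  rw [card_cube U hne] at h5
  refine le_trans (Nat.pow_le_pow_right (by norm_num) ?_) h5
  have h6 : #(vars U) ≤ #D := by
    refine (card_image_le).trans (card_image_le.trans ?_)
    rw [card_attach]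
  omega

theorem cnf_pairs {n k E W B s : ℕ} (hg : Good k E W B) (hW : 1 ≤ W)
    (D : Finset (Finset (Lit n))) (hs : #D ≤ s) (hk : outside D = k) :
    ∃ G : Finset (Lit n) × Finset (Lit n) → ℤ, ∀ j, 1 ≤ j → j ≤ B →
      ∃ p ∈ D ×ˢ D, (W : ℤ) ^ j ≤ s * G p ∧ G p ≤ W ^ j + 2 * s + 1 := by
  classical
  refine ⟨fun p => #(vars p.1), ?_⟩
  intro j hj hjB
  have hWj : W ^ j ≤ W ^ B := Nat.pow_le_pow_right hW hjB
  have hWjE : W ^ j < E := lt_of_le_of_lt hWj hg.W_le
  have hW0 : 0 < W ^ j := Nat.pow_pos hW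
  obtain ⟨t, ht, hc, h1, h2⟩ := window D.powerset
    (fun t => coef t) (fun t => n - #(vars (t.biUnion id))) s k
    (E - W ^ j) (by rw [card_powerset]; exact Nat.pow_le_pow_right (by norm_num) hs)
    (fun t _ => coef_abs t)
    (by rw [← hk]; exact outside_eq D) (by omega) (hg.one j hj hjB) (hg.zero j hj hjB)
  have htD : t ⊆ D := mem_powerset.1 ht
  set v := #(vars (t.biUnion id)) with hv
  have hvn : v ≤ n := card_vars_le _
  have hnE : E ≤ n := by
    have h3 : k ≤ 2 ^ n := by
      rw [← hk]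
      unfold outside
      refine (card_filter_le _ _).trans ?_
      simp
    have h4 := hg.lo.trans h3
    exact (Nat.pow_le_pow_iff_right (by norm_num : 1 < 2)).1 h4
  have hnEs : n ≤ E + s := by
    have h3 := outside_lower D (by
      rw [hk]
      exact lt_of_lt_of_le (by positivity) hg.lo)
    rw [hk] at h3
    have h4 := lt_of_le_of_lt h3 hg.hi
    have h5 := (Nat.pow_lt_pow_iff_right (by norm_num : 1 < 2)).1 h4
    omega
  have hsum : (W : ℤ) ^ j ≤ ∑ T ∈ t, (#(vars T) : ℤ) := by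
    have h7 : v ≤ ∑ T ∈ t, #(vars T) := by
      rw [hv, vars_biUnion]
      exact card_biUnion_le
    have h8 : W ^ j ≤ v := by omega
    exact_mod_cast h8.trans h7
  obtain ⟨T, hT, hbig⟩ := exists_big t _ (s : ℤ) ((W : ℤ) ^ j)
    (by exact_mod_cast (card_le_card htD).trans hs) (by exact_mod_cast hW0) hsum
  refine ⟨(T, T), mk_mem_product (htD hT) (htD hT), hbig, ?_⟩
  dsimp only
  have h9 : #(vars T) ≤ v := by
    rw [hv, vars_biUnion]
    exact card_le_card (subset_biUnion_of_mem vars hT)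
  have h10 : #(vars T) ≤ W ^ j + 2 * s + 1 := by omega
  exact_mod_cast h10

theorem final_count {α : Type} {W B s : ℕ} (hW : 4 * B ≤ W) (P : Finset (α × α))
    (hP : #P ≤ s ^ 2) (G : α × α → ℤ)
    (h : ∀ j, 1 ≤ j → j ≤ B → ∃ p ∈ P, (W : ℤ) ^ j ≤ s * G p ∧ G p ≤ W ^ j + 2 * s + 1) :
    B ≤ s ^ 2 := by
  classical
  by_contra hcon
  push Not at hcon
  have hB : 1 ≤ B := by omega
  have hW1 : 1 ≤ W := by omega
  have h' : ∀ j, j ∈ Finset.Icc 1 B →
      ∃ p ∈ P, (W : ℤ) ^ j ≤ s * G p ∧ G p ≤ W ^ j + 2 * s + 1 := by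
    intro j hj
    rw [mem_Icc] at hj
    exact h j hj.1 hj.2
  obtain ⟨p0, _, _⟩ := h 1 le_rfl hB
  have : Nonempty (α × α) := ⟨p0⟩
  choose! f hf1 hf2 hf3 using h'
  have key : ∀ i ∈ Finset.Icc 1 B, ∀ j ∈ Finset.Icc 1 B, i < j → f i ≠ f j := by
    intro i hi j hj hij he
    have h1 := hf2 j hj
    have h2 := hf3 i hi
    rw [← he] at h1
    have hs0 : (0 : ℤ) ≤ s := Int.natCast_nonneg s
    have h3 : (W : ℤ) ^ j ≤ s * (W ^ i + 2 * s + 1) :=
      h1.trans (mul_le_mul_of_nonneg_left h2 hs0)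
    have h4 : (W : ℤ) ^ (i + 1) ≤ W ^ j :=
      pow_le_pow_right₀ (by exact_mod_cast hW1) hij
    have h5 : (1 : ℤ) ≤ W ^ i := one_le_pow₀ (by exact_mod_cast hW1)
    have h6 : (4 * (s : ℤ) ^ 2 + 4) ≤ W := by
      have : 4 * s ^ 2 + 4 ≤ W := by omega
      exact_mod_cast this
    have h7 : (s : ℤ) * (W ^ i + 2 * s + 1) ≤ (2 * s ^ 2 + 2 * s) * W ^ i := by
      have h8 : (2 * (s : ℤ) ^ 2 + s) * 1 ≤ (2 * s ^ 2 + s) * W ^ i :=
        mul_le_mul_of_nonneg_left h5 (by positivity)
      calc (s : ℤ) * (W ^ i + 2 * s + 1) = s * W ^ i + (2 * s ^ 2 + s) * 1 := by ring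
        _ ≤ s * W ^ i + (2 * s ^ 2 + s) * W ^ i := by linarith
        _ = _ := by ring
    have h9 : (4 * (s : ℤ) ^ 2 + 4) * W ^ i ≤ W * W ^ i :=
      mul_le_mul_of_nonneg_right h6 (by linarith)
    have h10 : (W : ℤ) ^ (i + 1) = W * W ^ i := by rw [pow_succ]; ring
    have h11 : (2 * (s : ℤ) ^ 2 + 2 * s) * W ^ i < (4 * s ^ 2 + 4) * W ^ i := by
      apply mul_lt_mul_of_pos_right _ (by linarith)
      have h12 : 0 ≤ ((s : ℤ) - 1) ^ 2 := sq_nonneg _
      have h13 : 0 ≤ (s : ℤ) ^ 2 := sq_nonneg _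
      have h14 : ((s : ℤ) - 1) ^ 2 = s ^ 2 - 2 * s + 1 := by ring
      linarith
    linarith
  have h15 : #(Finset.Icc 1 B) ≤ #P := by
    apply Finset.card_le_card_of_injOn f
    · intro j hj
      exact hf1 j hj
    · intro i hi j hj he
      rcases lt_trichotomy i j with h16 | h16 | h16
      · exact absurd he (key i hi j hj h16)
      · exact h16
      · exact absurd he.symm (key j hj i hi h16)
  rw [Nat.card_Icc] at h15
  omega

/-- Every formula for `k` has at least `√B` terms or clauses. -/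
theorem lower {k E W B s : ℕ} (hg : Good k E W B) (hB : 1 ≤ B) (hW : 4 * B ≤ W)
    (h : Realizes k s) : B ≤ s ^ 2 := by
  classical
  obtain ⟨n, F, _, _, hs, h | h⟩ := h
  · obtain ⟨G, hG⟩ := dnf_pairs hg (by omega) F hs.le h
    exact final_count hW (F ×ˢ F) (by rw [card_product, hs, sq]) G hG
  · rw [cnf_eq] at h
    have hs' : #(F.image negC) ≤ s := card_image_le.trans hs.le
    obtain ⟨G, hG⟩ := cnf_pairs hg (by omega) (F.image negC) hs' h
    exact final_count hW _ (by rw [card_product, sq]; exact Nat.mul_le_mul hs' hs') G hG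

/-! ### The number -/

/-- The positions of the ones of `k`. -/
def bits (W B : ℕ) : Finset ℕ :=
  insert (W ^ B + 1) ((Finset.Icc 1 B).image fun j => W ^ B + 1 - W ^ j)

/-- The number `k`. -/
def num (W B : ℕ) : ℕ := ∑ a ∈ bits W B, 2 ^ a

theorem testBit_num (W B p : ℕ) : (num W B).testBit p = true ↔ p ∈ bits W B := by
  rw [← Nat.mem_bitIndices, ← List.mem_toFinset]
  unfold num
  rw [Finset.toFinset_bitIndices_sum_two_pow]

theorem pow_ne {W i j : ℕ} (hW : 2 ≤ W) (hi : 1 ≤ i) (hj : 1 ≤ j) : W ^ i ≠ W ^ j + 1 := by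
  intro h
  have h1 : W ∣ W ^ i := dvd_pow_self W (by omega)
  have h2 : W ∣ W ^ j := dvd_pow_self W (by omega)
  rw [h] at h1
  have h3 : W ∣ 1 := (Nat.dvd_add_right h2).1 h1
  have := Nat.dvd_one.1 h3
  omega

theorem mem_bits {W B p : ℕ} :
    p ∈ bits W B ↔ p = W ^ B + 1 ∨ ∃ j, 1 ≤ j ∧ j ≤ B ∧ W ^ B + 1 - W ^ j = p := by
  unfold bits
  rw [mem_insert, mem_image]
  simp only [mem_Icc, and_assoc]

theorem succ_notMem {W B p : ℕ} (hW : 2 ≤ W) (hp : p ∈ bits W B) : p + 1 ∉ bits W B := by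
  intro h
  rw [mem_bits] at hp h
  have hle : ∀ j, j ≤ B → W ^ j ≤ W ^ B := fun j hj => Nat.pow_le_pow_right (by omega) hj
  have hpos : ∀ j, 0 < W ^ j := fun j => Nat.pow_pos (by omega)
  rcases hp with rfl | ⟨i, hi1, hi2, rfl⟩
  · rcases h with h | ⟨j, hj1, hj2, h⟩
    · omega
    · have := hpos j
      omega
  · have e1 := hle i hi2
    have e2 := hpos i
    rcases h with h | ⟨j, hj1, hj2, h⟩
    · have e3 : W ^ i = 1 := by omega
      have e4 : 1 < W ^ i := Nat.one_lt_pow (by omega) (by omega)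
      omega
    · have e3 := hle j hj2
      have e4 := hpos j
      exact pow_ne hW hi1 hj1 (by omega)

theorem num_good {W B : ℕ} (hW : 2 ≤ W) :
    Good (num W B) (W ^ B + 1) W B := by
  have hle : ∀ j, j ≤ B → W ^ j ≤ W ^ B := fun j hj => Nat.pow_le_pow_right (by omega) hj
  have hpos : ∀ j, 0 < W ^ j := fun j => Nat.pow_pos (by omega)
  refine ⟨by omega, ?_, ?_, ?_, ?_⟩
  · unfold num
    exact Finset.single_le_sum (f := fun a => 2 ^ a) (fun _ _ => Nat.zero_le _)
      (mem_bits.2 (Or.inl rfl))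
  · unfold num
    have h1 : bits W B ⊆ Finset.range (W ^ B + 1 + 1) := by
      intro p hp
      rw [mem_bits] at hp
      rw [mem_range]
      rcases hp with rfl | ⟨i, _, _, rfl⟩
      · omega
      · omega
    refine lt_of_le_of_lt (Finset.sum_le_sum_of_subset h1) ?_
    exact Nat.geomSum_lt (m := 2) (n := W ^ B + 1 + 1) (le_refl 2) (fun k hk => mem_range.1 hk)
  · intro j hj hjB
    rw [testBit_num, mem_bits]
    exact Or.inr ⟨j, hj, hjB, rfl⟩
  · intro j hj hjB
    rw [← Bool.not_eq_true, testBit_num]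
    intro h
    have h2 := succ_notMem hW h
    have e1 := hle j hjB
    have : W ^ B + 1 - W ^ j - 1 + 1 = W ^ B + 1 - W ^ j := by omega
    rw [this, mem_bits] at h2
    exact h2 (Or.inr ⟨j, hj, hjB, rfl⟩)

theorem bl_num {W B : ℕ} (hW : 2 ≤ W) : bl (num W B) = B + 1 := by
  have hle : ∀ j, j ≤ B → W ^ j ≤ W ^ B := fun j hj => Nat.pow_le_pow_right (by omega) hj
  have hpos : ∀ j, 0 < W ^ j := fun j => Nat.pow_pos (by omega)
  have h1 : ({p ∈ range (num W B + 1) | (num W B).testBit p = true ∧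
      (num W B).testBit (p + 1) = false} : Finset ℕ) = bits W B := by
    ext p
    rw [mem_filter, testBit_num, ← Bool.not_eq_true, testBit_num]
    constructor
    · exact fun h => h.2.1
    · intro h
      refine ⟨?_, h, succ_notMem hW h⟩
      rw [mem_range]
      have h2 : 2 ^ p ≤ num W B := by
        unfold num
        exact Finset.single_le_sum (f := fun a => 2 ^ a) (fun _ _ => Nat.zero_le _) h
      have h3 : p < 2 ^ p := Nat.lt_two_pow_self
      omega
  unfold bl
  rw [h1]
  unfold bits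
  rw [card_insert_of_notMem, card_image_of_injOn, Nat.card_Icc]
  · omega
  · intro i hi j hj h
    rw [mem_coe, mem_Icc] at hi hj
    dsimp only at h
    have e1 := hle i hi.2
    have e2 := hle j hj.2
    have e3 : W ^ i = W ^ j := by omega
    exact Nat.pow_right_injective hW e3
  · intro h
    obtain ⟨j, hj, h⟩ := mem_image.1 h
    have := hpos j
    omega

/-! ### `β` is well defined -/

theorem exists_realizes (k : ℕ) (hk : 1 ≤ k) : Realizes k k := by
  classical
  have h1 : k ≤ #(univ : Finset (Fin k → Bool)) := by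
    rw [card_univ, Fintype.card_fun, Fintype.card_bool, Fintype.card_fin]
    exact Nat.lt_two_pow_self.le
  obtain ⟨X, _, hX⟩ := Finset.exists_subset_card_eq h1
  set tm : (Fin k → Bool) → Finset (Lit k) := fun x => univ.image fun i => (i, x i) with htm
  have hsat : ∀ x y : Fin k → Bool, (∀ l ∈ tm x, LitHolds y l) ↔ y = x := by
    intro x y
    constructor
    · intro h
      funext i
      exact h (i, x i) (mem_image_of_mem _ (mem_univ i))
    · rintro rfl l hl
      obtain ⟨i, _, rfl⟩ := mem_image.1 hl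
      rfl
  have hinj : Function.Injective tm := by
    intro x y h
    have h2 := (hsat x x).2 rfl
    rw [h] at h2
    exact (hsat y x).1 h2
  refine ⟨k, X.image tm, ?_, ?_, ?_, Or.inl ?_⟩
  · have : X.Nonempty := card_pos.1 (by omega)
    exact this.image tm
  · intro T hT
    obtain ⟨x, _, rfl⟩ := mem_image.1 hT
    exact ⟨(⟨0, by omega⟩, x ⟨0, by omega⟩), mem_image_of_mem _ (mem_univ _)⟩
  · rw [card_image_of_injective _ hinj, hX]
  · unfold dnfCount
    have h2 : ({x : Fin k → Bool | ∃ T ∈ X.image tm, ∀ l ∈ T, LitHolds x l} : Finset _) = X := by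
      ext y
      rw [mem_filter]
      constructor
      · rintro ⟨_, T, hT, h⟩
        obtain ⟨x, hx, rfl⟩ := mem_image.1 hT
        rw [(hsat x y).1 h]
        exact hx
      · intro hy
        exact ⟨mem_univ _, tm y, mem_image_of_mem _ hy, (hsat y y).2 rfl⟩
    rw [h2, hX]

theorem beta_isLeast (k : ℕ) (hk : 1 ≤ k) : IsLeast {s | Realizes k s} (beta k) :=
  ⟨Nat.sInf_mem ⟨k, exists_realizes k hk⟩, fun _ h => Nat.sInf_le h⟩

theorem quantitative (B : ℕ) (hB : 1 ≤ B) : ∃ k, 1 ≤ k ∧ bl k = B + 1 ∧ B ≤ beta k ^ 2 := by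
  have hg := num_good (W := 4 * B) (B := B) (by omega)
  have hk : 1 ≤ num (4 * B) B := le_trans (Nat.one_le_pow _ _ (by norm_num)) hg.lo
  refine ⟨num (4 * B) B, hk, bl_num (by omega), ?_⟩
  exact lower hg hB le_rfl (beta_isLeast _ hk).1

theorem poly_small (q : Polynomial ℝ) :
    ∃ B : ℕ, 1 ≤ B ∧ q.eval (Real.logb 2 ((B + 1 : ℕ) : ℝ)) < B := by
  have hO : (fun x : ℝ => q.eval x) =O[Filter.atTop]
      (fun x => ((Polynomial.X : Polynomial ℝ) ^ q.natDegree).eval x) :=
    Polynomial.isBigO_atTop_of_degree_le q _ (by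
      rw [Polynomial.degree_X_pow]
      exact Polynomial.degree_le_natDegree)
  have hlog : Filter.Tendsto (fun x => Real.logb 2 x) Filter.atTop Filter.atTop :=
    Real.tendsto_logb_atTop (by norm_num)
  have h1 := hO.comp_tendsto hlog
  have h2 : ((fun x => ((Polynomial.X : Polynomial ℝ) ^ q.natDegree).eval x) ∘
      fun x => Real.logb 2 x) =o[Filter.atTop] (id : ℝ → ℝ) := by
    have h3 := (Real.isLittleO_pow_log_id_atTop (n := q.natDegree)).const_mul_left
      ((Real.log 2)⁻¹ ^ q.natDegree)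
    refine h3.congr_left ?_
    intro x
    simp only [Function.comp, Polynomial.eval_pow, Polynomial.eval_X, Real.logb]
    rw [← mul_pow, div_eq_inv_mul]
  have h3 := h1.trans_isLittleO h2
  have h4 := h3.bound (c := 1 / 4) (by norm_num)
  have h5 := (tendsto_natCast_atTop_atTop (R := ℝ)).eventually h4
  obtain ⟨N, hN⟩ := Filter.eventually_atTop.1 h5
  refine ⟨N + 1, by omega, ?_⟩
  have h6 := hN (N + 1 + 1) (by omega)
  simp only [Function.comp, id, Real.norm_eq_abs] at h6
  have h7 := (le_abs_self _).trans h6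
  have h8 : |((N + 1 + 1 : ℕ) : ℝ)| = ((N + 1 + 1 : ℕ) : ℝ) := abs_of_nonneg (Nat.cast_nonneg _)
  rw [h8] at h7
  have h9 : (0 : ℝ) ≤ N := Nat.cast_nonneg N
  push_cast at h7 ⊢
  linarith

/-- **Main result.**  `β k` is not bounded by a polynomial in `log₂ (bl k)`: for every `B ≥ 1`
there is `k ≥ 1` with `bl k = B + 1` and `β k ≥ √B`; hence for every real polynomial `p` there is
`k ≥ 1` with `β k > p (log₂ (bl k))`, and there are no constant `C` and polynomial `f` with
`β k ≤ C · f (log₂ (bl k))` for all `k ≥ 1`. -/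
theorem result :
    (∀ B : ℕ, 1 ≤ B → ∃ k, 1 ≤ k ∧ bl k = B + 1 ∧ B ≤ beta k ^ 2) ∧
    (∀ p : Polynomial ℝ, ∃ k, 1 ≤ k ∧ p.eval (Real.logb 2 (bl k)) < beta k) ∧
    ¬ ∃ (C : ℝ) (f : Polynomial ℝ), ∀ k : ℕ, 1 ≤ k →
      (beta k : ℝ) ≤ C * f.eval (Real.logb 2 (bl k)) := by
  have main : ∀ p : Polynomial ℝ, ∃ k, 1 ≤ k ∧ p.eval (Real.logb 2 (bl k)) < beta k := by
    intro p
    by_contra hcon
    push Not at hcon
    obtain ⟨B, hB, hlt⟩ := poly_small (p ^ 2)
    obtain ⟨k, hk, hbl, hbeta⟩ := quantitative B hB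
    have h1 := hcon k hk
    rw [hbl] at h1
    rw [Polynomial.eval_pow] at hlt
    have h2 : (B : ℝ) ≤ (beta k : ℝ) ^ 2 := by exact_mod_cast hbeta
    have h3 : (beta k : ℝ) ^ 2 ≤ (p.eval (Real.logb 2 ((B + 1 : ℕ) : ℝ))) ^ 2 :=
      pow_le_pow_left₀ (Nat.cast_nonneg _) h1 2
    linarith
  refine ⟨quantitative, main, ?_⟩
  rintro ⟨C, f, h⟩
  obtain ⟨k, hk, hlt⟩ := main (Polynomial.C C * f)
  rw [Polynomial.eval_mul, Polynomial.eval_C] at hlt
  exact absurd (h k hk) (not_le.2 hlt)

end Pool.Agent.Results.MP_94c5d9_co.BlockCount
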